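import Pool.Agent.H31.Dag.CM

/-!
# A small calculus of counter programs, compiled to logspace transducers
-/

set_option autoImplicit false

namespace Pool.Agent.H69.PC

open Pool.Agent.H31.Dag Relation

/-- A program fragment: it starts in the state `start`; the next state `none` is the exit. -/
structure Frag (C O : Type) where
  /-- states -/
  Q : Type
  [fin : Finite Q]
  /-- initial state -/
  start : Q
  /-- transition function -/
  δ : Q → InSym → (C → Bool) → Option Q × Move × Option O × Option (C × Bool)

attribute [instance] Frag.fin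

/-- position of the input head, counters, output -/
structure St (C O : Type) where
  /-- position of the input head -/
  pos : ℕ
  /-- counters -/
  ctr : C → ℕ
  /-- output -/
  out : List O

section
variable {C O : Type} [DecidableEq C]

/-- effect of a counter operation -/
def cop (v : C → ℕ) : Option (C × Bool) → C → ℕ
  | none => v
  | some (i, true) => Function.update v i (v i + 1)
  | some (i, false) => Function.update v i (v i - 1)

/-- effect of a step -/
def eff (w : List Bool) (x : St C O) (mv : Move) (o : Option O) (op : Option (C × Bool)) : St C O :=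
  ⟨movePos w.length x.pos mv, cop x.ctr op, x.out ++ o.toList⟩

/-- what is read -/
def zt (x : St C O) : C → Bool := fun i => decide (x.ctr i = 0)

/-- one step -/
def Frag.step (F : Frag C O) (w : List Bool) : Option F.Q × St C O → Option (Option F.Q × St C O)
  | (none, _) => none
  | (some q, x) =>
    some ((F.δ q (inSym w x.pos) (zt x)).1,
      eff w x (F.δ q (inSym w x.pos) (zt x)).2.1 (F.δ q (inSym w x.pos) (zt x)).2.2.1
        (F.δ q (inSym w x.pos) (zt x)).2.2.2)

/-- all counters are at most `B` -/
def Ok (B : ℕ) (x : St C O) : Prop := ∀ i, x.ctr i ≤ B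

/-- reachability with bounded counters -/
def Frag.R (F : Frag C O) (w : List Bool) (B : ℕ) :
    Option F.Q × St C O → Option F.Q × St C O → Prop :=
  ReflTransGen (fun a b => F.step w a = some b ∧ Ok B a.2 ∧ Ok B b.2)

/-- the fragment leads from `x` to the exit with `y` -/
def Frag.Run (F : Frag C O) (w : List Bool) (B : ℕ) (x y : St C O) : Prop :=
  F.R w B (some F.start, x) (none, y)

/-! ### primitive fragments -/

/-- one step -/
def prim (mv : Move) (o : Option O) (op : Option (C × Bool)) : Frag C O where
  Q := Unit
  start := ()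
  δ := fun _ _ _ => (none, mv, o, op)

theorem prim_run (w : List Bool) (B : ℕ) (mv : Move) (o : Option O) (op : Option (C × Bool))
    (x : St C O) (hx : Ok B x) (hy : Ok B (eff w x mv o op)) :
    (prim mv o op).Run w B x (eff w x mv o op) :=
  ReflTransGen.single ⟨rfl, hx, hy⟩

/-! ### sequence -/

/-- sequence -/
def sq (p q : Frag C O) : Frag C O where
  Q := p.Q ⊕ q.Q
  start := Sum.inl p.start
  δ := fun a s z => match a with
    | Sum.inl a => ((match (p.δ a s z).1 with
        | some a' => some (Sum.inl a')
        | none => some (Sum.inr q.start)), (p.δ a s z).2)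
    | Sum.inr b => ((q.δ b s z).1.map Sum.inr, (q.δ b s z).2)

theorem sq_run {p q : Frag C O} {w : List Bool} {B : ℕ} {x y z : St C O} (h1 : p.Run w B x y)
    (h2 : q.Run w B y z) : (sq p q).Run w B x z := by
  have e1 : ∀ a b : Option p.Q × St C O, p.R w B a b →
      (sq p q).R w B ((match a.1 with | some a' => some (Sum.inl a') | none => some (Sum.inr q.start)), a.2)
        ((match b.1 with | some a' => some (Sum.inl a') | none => some (Sum.inr q.start)), b.2) := by
    intro a b h
    refine ReflTransGen.lift (fun a : Option p.Q × St C O =>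
      (((match a.1 with | some a' => some (Sum.inl a') | none => some (Sum.inr q.start) :
        Option (p.Q ⊕ q.Q)), a.2) : Option (sq p q).Q × St C O)) ?_ _ _ h
    rintro ⟨a, x⟩ ⟨b, y⟩ ⟨hs, hx, hy⟩
    refine ⟨?_, hx, hy⟩
    cases a with
    | none => exact absurd hs (by simp [Frag.step])
    | some a =>
      simp only [Frag.step, Option.some.injEq, Prod.mk.injEq] at hs
      obtain ⟨h1, h2⟩ := hs
      simp only [Frag.step, sq, Option.some.injEq, Prod.mk.injEq]
      exact ⟨by rw [h1], h2⟩
  have e2 : ∀ a b : Option q.Q × St C O, q.R w B a b →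
      (sq p q).R w B (a.1.map Sum.inr, a.2) (b.1.map Sum.inr, b.2) := by
    intro a b h
    refine ReflTransGen.lift (fun a : Option q.Q × St C O =>
      ((a.1.map Sum.inr, a.2) : Option (sq p q).Q × St C O)) ?_ _ _ h
    rintro ⟨a, x⟩ ⟨b, y⟩ ⟨hs, hx, hy⟩
    refine ⟨?_, hx, hy⟩
    cases a with
    | none => exact absurd hs (by simp [Frag.step])
    | some a =>
      simp only [Frag.step, Option.some.injEq, Prod.mk.injEq] at hs
      obtain ⟨h1, h2⟩ := hs
      simp only [Frag.step, sq, Option.map_some, Option.some.injEq, Prod.mk.injEq]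
      exact ⟨by rw [h1], h2⟩
  exact ReflTransGen.trans (e1 _ _ h1) (e2 _ _ h2)

/-! ### loops -/

/-- while the test is true do `p` -/
def loop (t : InSym → (C → Bool) → Bool) (p : Frag C O) : Frag C O where
  Q := Option p.Q
  start := none
  δ := fun a s z => match a with
    | none => (if t s z then some (some p.start) else none, Move.stay, none, none)
    | some a => ((match (p.δ a s z).1 with
        | some a' => some (some a')
        | none => some none), (p.δ a s z).2)

omit [DecidableEq C] in
theorem movePos_stay (n i : ℕ) : movePos n i Move.stay = i := rfl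

theorem eff_stay (w : List Bool) (x : St C O) : eff w x Move.stay none none = x := by
  simp [eff, movePos_stay, cop]

theorem loop_done {t : InSym → (C → Bool) → Bool} {p : Frag C O} {w : List Bool} {B : ℕ}
    {x : St C O} (hx : Ok B x) (ht : t (inSym w x.pos) (zt x) = false) : (loop t p).Run w B x x := by
  refine ReflTransGen.single ⟨?_, hx, hx⟩
  simp only [Frag.step, loop, ht, Bool.false_eq_true, if_false, eff_stay]

theorem loop_step {t : InSym → (C → Bool) → Bool} {p : Frag C O} {w : List Bool} {B : ℕ}
    {x y z : St C O} (hx : Ok B x) (ht : t (inSym w x.pos) (zt x) = true) (h1 : p.Run w B x y)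
    (h2 : (loop t p).Run w B y z) : (loop t p).Run w B x z := by
  have e1 : ∀ a b : Option p.Q × St C O, p.R w B a b →
      (loop t p).R w B (some a.1, a.2) (some b.1, b.2) := by
    intro a b h
    refine ReflTransGen.lift (fun a : Option p.Q × St C O =>
      ((some a.1, a.2) : Option (loop t p).Q × St C O)) ?_ _ _ h
    rintro ⟨a, x⟩ ⟨b, y⟩ ⟨hs, hx, hy⟩
    refine ⟨?_, hx, hy⟩
    cases a with
    | none => exact absurd hs (by simp [Frag.step])
    | some a =>
      simp only [Frag.step, Option.some.injEq, Prod.mk.injEq] at hs
      obtain ⟨h1, h2⟩ := hs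
      simp only [Frag.step, loop, Option.some.injEq, Prod.mk.injEq]
      refine ⟨?_, h2⟩
      rw [h1]
      cases b <;> rfl
  refine ReflTransGen.head ⟨?_, hx, hx⟩ (ReflTransGen.trans (e1 _ _ h1) h2)
  simp only [Frag.step, loop, ht, if_true, eff_stay]

/-! ### case distinction -/

/-- if the test is true do `p` else `q` -/
def ife (t : InSym → (C → Bool) → Bool) (p q : Frag C O) : Frag C O where
  Q := Option (p.Q ⊕ q.Q)
  start := none
  δ := fun a s z => match a with
    | none => (if t s z then some (some (Sum.inl p.start)) else some (some (Sum.inr q.start)),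
        Move.stay, none, none)
    | some (Sum.inl a) => ((p.δ a s z).1.map fun a' => some (Sum.inl a'), (p.δ a s z).2)
    | some (Sum.inr a) => ((q.δ a s z).1.map fun a' => some (Sum.inr a'), (q.δ a s z).2)

theorem ife_true {t : InSym → (C → Bool) → Bool} {p q : Frag C O} {w : List Bool} {B : ℕ}
    {x y : St C O} (hx : Ok B x) (ht : t (inSym w x.pos) (zt x) = true) (h1 : p.Run w B x y) :
    (ife t p q).Run w B x y := by
  have e1 : ∀ a b : Option p.Q × St C O, p.R w B a b →
      (ife t p q).R w B (a.1.map fun a' => some (Sum.inl a'), a.2)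
        (b.1.map fun a' => some (Sum.inl a'), b.2) := by
    intro a b h
    refine ReflTransGen.lift (fun a : Option p.Q × St C O =>
      ((a.1.map fun a' => some (Sum.inl a'), a.2) : Option (ife t p q).Q × St C O)) ?_ _ _ h
    rintro ⟨a, x⟩ ⟨b, y⟩ ⟨hs, hx, hy⟩
    refine ⟨?_, hx, hy⟩
    cases a with
    | none => exact absurd hs (by simp [Frag.step])
    | some a =>
      simp only [Frag.step, Option.some.injEq, Prod.mk.injEq] at hs
      obtain ⟨h1, h2⟩ := hs
      simp only [Frag.step, ife, Option.map_some, Option.some.injEq, Prod.mk.injEq]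
      exact ⟨by rw [h1], h2⟩
  refine ReflTransGen.head ⟨?_, hx, hx⟩ (e1 _ _ h1)
  simp only [Frag.step, ife, ht, if_true, eff_stay, Option.map_some]

theorem ife_false {t : InSym → (C → Bool) → Bool} {p q : Frag C O} {w : List Bool} {B : ℕ}
    {x y : St C O} (hx : Ok B x) (ht : t (inSym w x.pos) (zt x) = false) (h1 : q.Run w B x y) :
    (ife t p q).Run w B x y := by
  have e1 : ∀ a b : Option q.Q × St C O, q.R w B a b →
      (ife t p q).R w B (a.1.map fun a' => some (Sum.inr a'), a.2)
        (b.1.map fun a' => some (Sum.inr a'), b.2) := by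
    intro a b h
    refine ReflTransGen.lift (fun a : Option q.Q × St C O =>
      ((a.1.map fun a' => some (Sum.inr a'), a.2) : Option (ife t p q).Q × St C O)) ?_ _ _ h
    rintro ⟨a, x⟩ ⟨b, y⟩ ⟨hs, hx, hy⟩
    refine ⟨?_, hx, hy⟩
    cases a with
    | none => exact absurd hs (by simp [Frag.step])
    | some a =>
      simp only [Frag.step, Option.some.injEq, Prod.mk.injEq] at hs
      obtain ⟨h1, h2⟩ := hs
      simp only [Frag.step, ife, Option.map_some, Option.some.injEq, Prod.mk.injEq]
      exact ⟨by rw [h1], h2⟩
  refine ReflTransGen.head ⟨?_, hx, hx⟩ (e1 _ _ h1)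
  simp only [Frag.step, ife, ht, Bool.false_eq_true, if_false, eff_stay, Option.map_some]

/-! ### output of a fixed word -/

/-- print the word `l` -/
def prt (C : Type) {O : Type} : List O → Frag C O
  | [] => prim Move.stay none none
  | o :: l => sq (prim Move.stay (some o) none) (prt C l)

theorem prt_run (w : List Bool) (B : ℕ) (l : List O) : ∀ x : St C O, Ok B x →
    (prt C l).Run w B x ⟨x.pos, x.ctr, x.out ++ l⟩ := by
  induction l with
  | nil =>
    intro x hx
    have := prim_run w B Move.stay none none x hx (by rw [eff_stay]; exact hx)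
    rw [eff_stay] at this
    rw [List.append_nil]
    exact this
  | cons o l ih =>
    intro x hx
    have h1 := prim_run w B Move.stay (some o) none x hx (by exact hx)
    have h2 := ih (eff w x Move.stay (some o) none) hx
    have h3 := sq_run h1 h2
    have e : (⟨(eff w x Move.stay (some o) none).pos, (eff w x Move.stay (some o) none).ctr,
        (eff w x Move.stay (some o) none).out ++ l⟩ : St C O) = ⟨x.pos, x.ctr, x.out ++ (o :: l)⟩ := by
      simp [eff, movePos_stay, cop]
    rw [e] at h3
    exact h3

end

/-! ### compilation -/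

section
variable {C O : Type} [DecidableEq C] [Finite C]

/-- the machine with counters -/
def Frag.toCM (F : Frag C O) : CM O where
  Q := Option F.Q
  K := Empty
  Γ := Unit
  C := C
  blank := ()
  start := some F.start
  δ := fun q s _ z => q.map fun a => ((F.δ a s z).1, (F.δ a s z).2.1, (fun k => k.elim),
    (F.δ a s z).2.2.1, (F.δ a s z).2.2.2)

/-- configurations of the machine with counters -/
def Frag.conf (F : Frag C O) (a : Option F.Q × St C O) : F.toCM.Cfg where
  q := a.1
  pos := a.2.pos
  tape := fun k => k.elim
  head := fun k => k.elim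
  ctr := a.2.ctr
  out := a.2.out

theorem Frag.conf_step (F : Frag C O) (w : List Bool) (a b : Option F.Q × St C O)
    (h : F.step w a = some b) : F.toCM.step w (F.conf a) = some (F.conf b) := by
  obtain ⟨q, x⟩ := a
  cases q with
  | none => exact absurd h (by simp [Frag.step])
  | some q =>
    simp only [Frag.step, Option.some.injEq] at h
    subst h
    unfold CM.step
    simp only [Frag.toCM, Frag.conf, Option.map_some, Option.some.injEq]
    change CM.Cfg.mk (M := F.toCM) (F.δ q (inSym w x.pos) (zt x)).1 _ _ _ _ _ = _
    congr 1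
    · funext k
      exact (Empty.elim k : _)
    · show F.toCM.ctrOp x.ctr (F.δ q (inSym w x.pos) (zt x)).2.2.2 =
        cop x.ctr (F.δ q (inSym w x.pos) (zt x)).2.2.2
      rcases (F.δ q (inSym w x.pos) (zt x)).2.2.2 with _ | ⟨i, _ | _⟩ <;> rfl

theorem Frag.conf_good (F : Frag C O) {B s : ℕ} (hs : Nat.log 2 (B + 1) + 1 ≤ s)
    {a : Option F.Q × St C O} (h : Ok B a.2) : F.toCM.Good s (F.conf a) := by
  refine ⟨fun k => k.elim, fun i => ?_⟩
  have h1 := length_ds_le (a.2.ctr i)
  have h2 : Nat.log 2 (a.2.ctr i + 1) ≤ Nat.log 2 (B + 1) := Nat.log_mono_right (by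
    have := h i
    omega)
  have h3 : (ds (a.2.ctr i)).length + 1 ≤ s := by omega
  exact h3

/-- the transducer -/
noncomputable def Frag.toLog (F : Frag C O) : LogTM O := F.toCM.toLog

/-- **Correctness of the compilation.** -/
theorem Frag.computes (F : Frag C O) {w : List Bool} {B s : ℕ} (hs : Nat.log 2 (B + 1) + 1 ≤ s)
    {y : St C O} (h : F.Run w B ⟨0, fun _ => 0, []⟩ y) : F.toLog.Computes w s y.out := by
  have h1 : F.toCM.Reach w s (F.conf (some F.start, ⟨0, fun _ => 0, []⟩)) (F.conf (none, y)) := by
    refine ReflTransGen.lift F.conf ?_ _ _ h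
    intro a b hab
    exact ⟨F.conf_step w a b hab.1, F.conf_good hs hab.2.1, F.conf_good hs hab.2.2⟩
  have h2 : F.conf (some F.start, ⟨0, fun _ => 0, []⟩) = F.toCM.init := by
    unfold Frag.conf CM.init
    congr 1
    funext k
    exact k.elim
  rw [h2] at h1
  exact CM.computes h1 rfl

/-! ### one-way machines -/

/-- the input head never moves to the left -/
def OneWay {O : Type} (M : LogTM O) : Prop := ∀ q s r x, M.δ q s r = some x → x.2.1 ≠ Move.left

omit [DecidableEq C] [Finite C] in
/-- the input head never moves to the left -/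
def Frag.Right (F : Frag C O) : Prop := ∀ q s z, (F.δ q s z).2.1 ≠ Move.left

theorem Frag.oneWay {F : Frag C O} (h : F.Right) : OneWay F.toLog := by
  intro q s r x hx
  rcases q with q | ⟨i, m, q⟩
  · simp only [Frag.toLog, CM.toLog, CM.cδ] at hx
    rw [Option.map_eq_some_iff] at hx
    obtain ⟨y, hy, rfl⟩ := hx
    simp only [Frag.toCM] at hy
    rw [Option.map_eq_some_iff] at hy
    obtain ⟨a, -, rfl⟩ := hy
    exact h _ _ _
  · simp only [Frag.toLog, CM.toLog, CM.cδ, Option.some.injEq] at hx
    subst hx
    simp

end

section
variable {C O : Type}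

theorem right_prim {mv : Move} (h : mv ≠ Move.left) (o : Option O) (op : Option (C × Bool)) :
    (prim mv o op).Right := fun _ _ _ => h

theorem right_sq {p q : Frag C O} (hp : p.Right) (hq : q.Right) : (sq p q).Right := by
  intro a s z
  rcases a with a | a
  · exact hp a s z
  · exact hq a s z

theorem right_loop {t : InSym → (C → Bool) → Bool} {p : Frag C O} (hp : p.Right) :
    (loop t p).Right := by
  intro a s z
  rcases a with _ | a
  · show Move.stay ≠ Move.left
    simp
  · exact hp a s z

theorem right_ife {t : InSym → (C → Bool) → Bool} {p q : Frag C O} (hp : p.Right) (hq : q.Right) :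
    (ife t p q).Right := by
  intro a s z
  rcases a with _ | a | a
  · show Move.stay ≠ Move.left
    simp
  · exact hp a s z
  · exact hq a s z

theorem right_prt (l : List O) : (prt C l).Right := by
  induction l with
  | nil => exact right_prim (by simp) _ _
  | cons o l ih => exact right_sq (right_prim (by simp) _ _) ih

end

end Pool.Agent.H69.PC
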