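import Pool.Agent.H69.PC.Sim

/-!
# Logspace reductions, P-completeness, and the complete language
-/

set_option autoImplicit false

namespace Pool.Agent.H69.PC

open Pool.Agent.H31.Dag

/-- The function `f` is computable in logarithmic space (space `c * log n + c` on inputs of length
`n`). -/
def LogFun {O : Type} (f : List Bool → List O) : Prop :=
  ∃ (M : LogTM O) (c : ℕ), ∀ x, M.Computes x (c * Nat.log 2 x.length + c) (f x)

/-- The function `f` is computable in logarithmic space by a machine whose input head never moves to
the left. -/
def OneWayLogFun {O : Type} (f : List Bool → List O) : Prop :=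
  ∃ (M : LogTM O) (c : ℕ), OneWay M ∧ ∀ x, M.Computes x (c * Nat.log 2 x.length + c) (f x)

/-- `K` is reducible to `L` by a logspace many-one reduction. -/
def LogRed (K L : Set (List Bool)) : Prop :=
  ∃ f : List Bool → List Bool, LogFun f ∧ ∀ x, x ∈ K ↔ f x ∈ L

/-- `L` is complete for P under logspace many-one reductions. -/
def PComplete (L : Set (List Bool)) : Prop :=
  InP (id : List Bool → List Bool) L ∧
    ∀ K : Set (List Bool), InP (id : List Bool → List Bool) K → LogRed K L

/-- the code of a bit -/
def ph (b : Bool) : List Bool := [!b, b, false]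

theorem oneHot_map_lt (y : List Bool) : oneHot (y.map lt) = y.flatMap ph := by
  induction y with
  | nil => rfl
  | cons b y ih =>
    have h := oneHot_append [lt b] (y.map lt)
    rw [oneHot_lt] at h
    rw [List.map_cons, List.flatMap_cons, ← ih]
    exact h

theorem oneHot_code (y : List Bool) :
    oneHot (code y) = y.flatMap ph ++ ([false, false, true] ++ y.flatMap ph) := by
  unfold code
  rw [oneHot_append, oneHot_cons, oneHot_map_lt]
  rfl

theorem outW_flatMap {A B : Type} (f : A → List B) (k : ℕ) (P : List A) (c : Bool → List A)
    (Q blk E : List A) (w : List Bool) : (outW k P c Q blk E w).flatMap f =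
      outW k (P.flatMap f) (fun b => (c b).flatMap f) (Q.flatMap f) (blk.flatMap f)
        (E.flatMap f) w := by
  unfold outW
  simp only [List.flatMap_append, flatten_flatMap, List.flatMap_assoc]

/-- **The language `L_U` is complete for P and its DAG reachability problem is in P.** -/
theorem main_complete : ∃ L : Set (List (Fin 3)), DagReachInP L ∧ PComplete (oneHot '' L) ∧
    ∀ K : Set (List Bool), InP (id : List Bool → List Bool) K →
      ∃ g : List Bool → List Bool, OneWayLogFun g ∧ ∀ x, x ∈ K ↔ code (g x) ∈ L := by
  have hL : DagReachInP (LK KU) := dagReachInP_LK inP_KU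
  refine ⟨LK KU, hL, ⟨inP_of_dagReach hL, fun K hK => ?_⟩, fun K hK => ?_⟩
  · obtain ⟨k, A, c, B, blk, h⟩ := exists_red hK
    obtain ⟨M, hM⟩ := two_computes k (A.flatMap ph) (fun b => (c b).flatMap ph) (B.flatMap ph)
      (blk.flatMap ph) ([false].flatMap ph) [false, false, true]
    refine ⟨fun x => oneHot (code (outW k A c B blk [false] x)), ⟨M, 2, fun x => ?_⟩, fun x => ?_⟩
    · simp only [oneHot_code, outW_flatMap]
      exact hM x
    · rw [h, ← code_mem_LK (K := KU)]
      constructor
      · intro h1
        exact ⟨_, h1, rfl⟩
      · rintro ⟨w, hw, he⟩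
        rw [← oneHot_injective 3 he]
        exact hw
  · obtain ⟨k, A, c, B, blk, h⟩ := exists_red hK
    obtain ⟨M, hM1, hM⟩ := one_computes k A c B blk [false]
    exact ⟨fun x => outW k A c B blk [false] x, ⟨M, 2, hM1, hM⟩, fun x => by
      rw [h, ← code_mem_LK (K := KU)]⟩

end Pool.Agent.H69.PC
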