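import Pool.Agent.H69.PC.Frag

/-!
# Programs that print words of polynomial length
-/

set_option autoImplicit false

namespace Pool.Agent.H69.PC

open Pool.Agent.H31.Dag Relation

/-- counters: `(i, false)` and `(i, true)` are the two counters of the `i`-th loop -/
abbrev Ct (k : ℕ) : Type := Fin (k + 1) × Bool

/-- index of a loop -/
def ix (k i : ℕ) : Fin (k + 1) := ⟨min i k, by omega⟩

/-- first counter of loop `i` -/
def ca (k i : ℕ) : Ct k := (ix k i, false)

/-- second counter of loop `i` -/
def cb (k i : ℕ) : Ct k := (ix k i, true)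

theorem ix_ne {k i j : ℕ} (hij : i < j) (hj : j ≤ k) : ix k i ≠ ix k j := by
  intro h
  have := congrArg Fin.val h
  simp only [ix] at this
  omega

theorem ca_ne_cb (k i j : ℕ) : ca k i ≠ cb k j := by
  intro h
  have := congrArg Prod.snd h
  simp [ca, cb] at this

section
variable {O : Type} {k : ℕ}

/-- prints `blk` in `j` nested loops -/
def pw (k : ℕ) (blk : List O) : ℕ → Frag (Ct k) O
  | 0 => prt (Ct k) blk
  | j + 1 => sq (loop (fun _ z => !(z (cb k j))) (sq (pw k blk j)
      (sq (prim Move.stay none (some (cb k j, false))) (prim Move.stay none (some (ca k j, true))))))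
      (sq (pw k blk j) (loop (fun _ z => !(z (ca k j)))
        (sq (prim Move.stay none (some (ca k j, false))) (prim Move.stay none (some (cb k j, true))))))

/-- counters of loop `j` set to `a`, `b` -/
def upd (k j : ℕ) (v : Ct k → ℕ) (a b : ℕ) : Ct k → ℕ :=
  Function.update (Function.update v (ca k j) a) (cb k j) b

theorem upd_a (j : ℕ) (v : Ct k → ℕ) (a b : ℕ) : upd k j v a b (ca k j) = a := by
  unfold upd
  rw [Function.update_of_ne (ca_ne_cb k j j), Function.update_self]

theorem upd_b (j : ℕ) (v : Ct k → ℕ) (a b : ℕ) : upd k j v a b (cb k j) = b := by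
  unfold upd
  rw [Function.update_self]

theorem upd_of_lt {i j : ℕ} (hij : i < j) (hj : j ≤ k) (v : Ct k → ℕ) (a b : ℕ) :
    upd k j v a b (ca k i) = v (ca k i) ∧ upd k j v a b (cb k i) = v (cb k i) := by
  have h1 : ca k i ≠ ca k j := fun h => ix_ne hij hj (congrArg Prod.fst h)
  have h2 : cb k i ≠ cb k j := fun h => ix_ne hij hj (congrArg Prod.fst h)
  unfold upd
  rw [Function.update_of_ne (ca_ne_cb k i j), Function.update_of_ne h1, Function.update_of_ne h2,
    Function.update_of_ne (ca_ne_cb k j i).symm]
  exact ⟨rfl, rfl⟩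

theorem upd_self (j : ℕ) (v : Ct k → ℕ) : upd k j v (v (ca k j)) (v (cb k j)) = v := by
  unfold upd
  rw [Function.update_eq_self (ca k j) v, Function.update_eq_self]

theorem upd_upd_a (j : ℕ) (v : Ct k → ℕ) (a b a' : ℕ) :
    Function.update (upd k j v a b) (ca k j) a' = upd k j v a' b := by
  unfold upd
  rw [Function.update_comm (ca_ne_cb k j j).symm, Function.update_idem]

theorem upd_upd_b (j : ℕ) (v : Ct k → ℕ) (a b b' : ℕ) :
    Function.update (upd k j v a b) (cb k j) b' = upd k j v a b' := by
  unfold upd
  rw [Function.update_idem]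

theorem ok_upd {n j : ℕ} {v : Ct k → ℕ} (hv : ∀ i, v i ≤ n) {a b : ℕ} (ha : a ≤ n) (hb : b ≤ n)
    (pos : ℕ) (out : List O) : Ok n (⟨pos, upd k j v a b, out⟩ : St (Ct k) O) := by
  intro i
  show upd k j v a b i ≤ n
  unfold upd
  by_cases h1 : i = cb k j
  · rw [h1, Function.update_self]; exact hb
  · rw [Function.update_of_ne h1]
    by_cases h2 : i = ca k j
    · rw [h2, Function.update_self]; exact ha
    · rw [Function.update_of_ne h2]; exact hv i

theorem dec_b (w : List Bool) (n j : ℕ) (v : Ct k → ℕ) (hv : ∀ i, v i ≤ n) (a b : ℕ) (ha : a ≤ n)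
    (hb : b ≤ n) (pos : ℕ) (out : List O) : (prim Move.stay none (some (cb k j, false))).Run w n
      ⟨pos, upd k j v a b, out⟩ ⟨pos, upd k j v a (b - 1), out⟩ := by
  have h := prim_run w n Move.stay none (some (cb k j, false))
    (⟨pos, upd k j v a b, out⟩ : St (Ct k) O) (ok_upd hv ha hb pos out)
  have e : eff w (⟨pos, upd k j v a b, out⟩ : St (Ct k) O) Move.stay none (some (cb k j, false)) =
      ⟨pos, upd k j v a (b - 1), out⟩ := by
    simp only [eff, movePos_stay, cop, upd_b, upd_upd_b, Option.toList_none, List.append_nil]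
  rw [e] at h
  exact h (ok_upd hv ha (by omega) pos out)

theorem inc_b (w : List Bool) (n j : ℕ) (v : Ct k → ℕ) (hv : ∀ i, v i ≤ n) (a b : ℕ) (ha : a ≤ n)
    (hb : b + 1 ≤ n) (pos : ℕ) (out : List O) : (prim Move.stay none (some (cb k j, true))).Run w n
      ⟨pos, upd k j v a b, out⟩ ⟨pos, upd k j v a (b + 1), out⟩ := by
  have h := prim_run w n Move.stay none (some (cb k j, true))
    (⟨pos, upd k j v a b, out⟩ : St (Ct k) O) (ok_upd hv ha (by omega) pos out)
  have e : eff w (⟨pos, upd k j v a b, out⟩ : St (Ct k) O) Move.stay none (some (cb k j, true)) =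
      ⟨pos, upd k j v a (b + 1), out⟩ := by
    simp only [eff, movePos_stay, cop, upd_b, upd_upd_b, Option.toList_none, List.append_nil]
  rw [e] at h
  exact h (ok_upd hv ha hb pos out)

theorem dec_a (w : List Bool) (n j : ℕ) (v : Ct k → ℕ) (hv : ∀ i, v i ≤ n) (a b : ℕ) (ha : a ≤ n)
    (hb : b ≤ n) (pos : ℕ) (out : List O) : (prim Move.stay none (some (ca k j, false))).Run w n
      ⟨pos, upd k j v a b, out⟩ ⟨pos, upd k j v (a - 1) b, out⟩ := by
  have h := prim_run w n Move.stay none (some (ca k j, false))
    (⟨pos, upd k j v a b, out⟩ : St (Ct k) O) (ok_upd hv ha hb pos out)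
  have e : eff w (⟨pos, upd k j v a b, out⟩ : St (Ct k) O) Move.stay none (some (ca k j, false)) =
      ⟨pos, upd k j v (a - 1) b, out⟩ := by
    simp only [eff, movePos_stay, cop, upd_a, upd_upd_a, Option.toList_none, List.append_nil]
  rw [e] at h
  exact h (ok_upd hv (by omega) hb pos out)

theorem inc_a (w : List Bool) (n j : ℕ) (v : Ct k → ℕ) (hv : ∀ i, v i ≤ n) (a b : ℕ)
    (ha : a + 1 ≤ n) (hb : b ≤ n) (pos : ℕ) (out : List O) :
    (prim Move.stay none (some (ca k j, true))).Run w n
      ⟨pos, upd k j v a b, out⟩ ⟨pos, upd k j v (a + 1) b, out⟩ := by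
  have h := prim_run w n Move.stay none (some (ca k j, true))
    (⟨pos, upd k j v a b, out⟩ : St (Ct k) O) (ok_upd hv (by omega) hb pos out)
  have e : eff w (⟨pos, upd k j v a b, out⟩ : St (Ct k) O) Move.stay none (some (ca k j, true)) =
      ⟨pos, upd k j v (a + 1) b, out⟩ := by
    simp only [eff, movePos_stay, cop, upd_a, upd_upd_a, Option.toList_none, List.append_nil]
  rw [e] at h
  exact h (ok_upd hv ha hb pos out)

theorem pw_run (w : List Bool) (n : ℕ) (blk : List O) (j : ℕ) : j ≤ k + 1 →
    ∀ x : St (Ct k) O, Ok n x → (∀ i < j, x.ctr (ca k i) = 0 ∧ x.ctr (cb k i) = n) →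
    (pw k blk j).Run w n x ⟨x.pos, x.ctr, x.out ++ (List.replicate ((n + 1) ^ j) blk).flatten⟩ := by
  induction j with
  | zero =>
    intro _ x hx _
    have := prt_run w n blk x hx
    simpa [pw] using this
  | succ j ih =>
    intro hj x hx hi
    obtain ⟨pos, v, out⟩ := x
    have hv : ∀ i, v i ≤ n := hx
    have hjk : j ≤ k := by omega
    obtain ⟨hva, hvb⟩ := hi j (Nat.lt_succ_self j)
    simp only at hva hvb
    set W : ℕ → List O := fun m => (List.replicate (m * (n + 1) ^ j) blk).flatten with hW
    have hbody : ∀ (a b : ℕ), a ≤ n → b ≤ n → ∀ out : List O,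
        (pw k blk j).Run w n ⟨pos, upd k j v a b, out⟩ ⟨pos, upd k j v a b, out ++ W 1⟩ := by
      intro a b ha hb out
      have h := ih (by omega) ⟨pos, upd k j v a b, out⟩ (ok_upd hv ha hb pos out) (by
        intro i hij
        have h1 := upd_of_lt (k := k) hij hjk v a b
        have h2 := hi i (by omega)
        exact ⟨h1.1.trans h2.1, h1.2.trans h2.2⟩)
      simpa [hW] using h
    -- first loop
    have hl1 : ∀ m, m ≤ n → ∀ out : List O,
        (loop (fun _ z => !(z (cb k j))) (sq (pw k blk j)
          (sq (prim Move.stay none (some (cb k j, false)))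
            (prim Move.stay none (some (ca k j, true)))))).Run w n
          ⟨pos, upd k j v (n - m) m, out⟩ ⟨pos, upd k j v n 0, out ++ W m⟩ := by
      intro m
      induction m with
      | zero =>
        intro _ out
        have e : out ++ W 0 = out := by simp [hW]
        rw [e, Nat.sub_zero]
        refine loop_done (ok_upd hv le_rfl (Nat.zero_le _) pos out) ?_
        simp [zt, upd_b]
      | succ m ihm =>
        intro hm out
        have h1 := hbody (n - (m + 1)) (m + 1) (by omega) hm out
        have h2 := dec_b w n j v hv (n - (m + 1)) (m + 1) (by omega) hm pos (out ++ W 1)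
        have h3 := inc_a w n j v hv (n - (m + 1)) m (by omega) (by omega) pos (out ++ W 1)
        have e1 : n - (m + 1) + 1 = n - m := by omega
        rw [e1] at h3
        rw [Nat.add_sub_cancel] at h2
        have h4 := ihm (by omega) (out ++ W 1)
        have e2 : out ++ W 1 ++ W m = out ++ W (m + 1) := by
          rw [List.append_assoc]
          congr 1
          simp only [hW]
          rw [← List.flatten_append, ← List.replicate_add]
          congr 2
          ring
        rw [e2] at h4
        refine loop_step (ok_upd hv (by omega) hm pos out) ?_ (sq_run h1 (sq_run h2 h3)) h4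
        simp [zt, upd_b]
    have hl2 : ∀ m, m ≤ n → ∀ out : List O,
        (loop (fun _ z => !(z (ca k j))) (sq (prim Move.stay none (some (ca k j, false)))
            (prim Move.stay none (some (cb k j, true))))).Run w n
          ⟨pos, upd k j v m (n - m), out⟩ ⟨pos, upd k j v 0 n, out⟩ := by
      intro m
      induction m with
      | zero =>
        intro _ out
        rw [Nat.sub_zero]
        refine loop_done (ok_upd hv (Nat.zero_le _) le_rfl pos out) ?_
        simp [zt, upd_a]
      | succ m ihm =>
        intro hm out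
        have h2 := dec_a w n j v hv (m + 1) (n - (m + 1)) hm (by omega) pos out
        have h3 := inc_b w n j v hv m (n - (m + 1)) (by omega) (by omega) pos out
        have e1 : n - (m + 1) + 1 = n - m := by omega
        rw [e1] at h3
        rw [Nat.add_sub_cancel] at h2
        refine loop_step (ok_upd hv hm (by omega) pos out) ?_ (sq_run h2 h3) (ihm (by omega) out)
        simp [zt, upd_a]
    have e0 : v = upd k j v 0 n := by
      conv_lhs => rw [← upd_self (k := k) j v]
      rw [hva, hvb]
    have s1 := hl1 n le_rfl out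
    rw [Nat.sub_self] at s1
    have s2 := hbody n 0 le_rfl (Nat.zero_le _) (out ++ W n)
    have s3 := hl2 n le_rfl (out ++ W n ++ W 1)
    rw [Nat.sub_self] at s3
    have s4 := sq_run s1 (sq_run s2 s3)
    have e2 : out ++ W n ++ W 1 = out ++ (List.replicate ((n + 1) ^ (j + 1)) blk).flatten := by
      rw [List.append_assoc]
      congr 1
      simp only [hW]
      rw [← List.flatten_append, ← List.replicate_add]
      congr 2
      ring
    rw [e2, ← e0] at s4
    exact s4

/-! ### counting the input -/

/-- increment the second counters of the loops below `j` -/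
def incAll (k : ℕ) : ℕ → Frag (Ct k) O
  | 0 => prim Move.stay none none
  | j + 1 => sq (incAll k j) (prim Move.stay none (some (cb k j, true)))

/-- first counters `0`, second counters `i` -/
def cv (k i : ℕ) : Ct k → ℕ := fun c => if c.2 then i else 0

/-- intermediate values -/
def cvv (k i j : ℕ) : Ct k → ℕ := fun c => if c.2 then (if c.1.val < j then i + 1 else i) else 0

theorem cvv_zero (k i : ℕ) : cvv k i 0 = cv k i := by
  funext c
  simp [cvv, cv]

theorem cvv_last (k i : ℕ) : cvv k i (k + 1) = cv k (i + 1) := by
  funext c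
  have := c.1.2
  simp only [cvv, cv, this, if_true]

theorem cvv_succ {k i j : ℕ} (hj : j ≤ k) :
    Function.update (cvv k i j) (cb k j) (cvv k i j (cb k j) + 1) = cvv k i (j + 1) := by
  have h0 : (cb k j).1.val = j := by simp [cb, ix, hj]
  funext c
  by_cases hc : c = cb k j
  · rw [hc, Function.update_self]
    simp only [cvv, h0]
    simp [cb]
  · rw [Function.update_of_ne hc]
    unfold cvv
    by_cases h2 : c.2 = true
    · have h3 : c.1.val ≠ j := by
        intro h
        apply hc
        refine Prod.ext (Fin.ext ?_) ?_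
        · rw [h0, h]
        · rw [h2]; rfl
      simp only [h2, if_true]
      by_cases h4 : c.1.val < j
      · rw [if_pos h4, if_pos (by omega)]
      · rw [if_neg h4, if_neg (by omega)]
    · simp [h2]

theorem ok_cvv {n i j : ℕ} (hi : i + 1 ≤ n) (pos : ℕ) (out : List O) :
    Ok n (⟨pos, cvv k i j, out⟩ : St (Ct k) O) := by
  intro c
  show cvv k i j c ≤ n
  unfold cvv
  split_ifs <;> omega

theorem ok_cv {n i : ℕ} (hi : i ≤ n) (pos : ℕ) (out : List O) :
    Ok n (⟨pos, cv k i, out⟩ : St (Ct k) O) := by
  intro c
  show cv k i c ≤ n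
  unfold cv
  split_ifs <;> omega

theorem incAll_run (w : List Bool) (n i : ℕ) (hi : i + 1 ≤ n) (pos : ℕ) (out : List O) (j : ℕ) :
    j ≤ k + 1 → (incAll k j).Run w n ⟨pos, cv k i, out⟩ ⟨pos, cvv k i j, out⟩ := by
  induction j with
  | zero =>
    intro _
    rw [cvv_zero]
    have h := prim_run w n Move.stay none none (⟨pos, cv k i, out⟩ : St (Ct k) O)
      (ok_cv (by omega) pos out) (by rw [eff_stay]; exact ok_cv (by omega) pos out)
    rw [eff_stay] at h
    exact h
  | succ j ih =>
    intro hj
    have h1 := ih (by omega)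
    have h := prim_run w n Move.stay none (some (cb k j, true))
      (⟨pos, cvv k i j, out⟩ : St (Ct k) O) (ok_cvv hi pos out)
    have e : eff w (⟨pos, cvv k i j, out⟩ : St (Ct k) O) Move.stay none (some (cb k j, true)) =
        ⟨pos, cvv k i (j + 1), out⟩ := by
      simp only [eff, movePos_stay, cop, Option.toList_none, List.append_nil]
      rw [cvv_succ (by omega)]
    rw [e] at h
    exact sq_run h1 (h (ok_cvv hi pos out))

end

/-! ### a pass over the input -/

/-- is the symbol a bit -/
def isBit : InSym → Bool
  | .bit _ => true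
  | _ => false

/-- is the symbol the bit `1` -/
def isOne : InSym → Bool
  | .bit true => true
  | _ => false

/-- is the symbol the left end marker -/
def isLend : InSym → Bool
  | .lend => true
  | _ => false

section
variable {C O : Type} [DecidableEq C]

/-- for every input bit `b` print `c b` and do `I` -/
def pass (I : Frag C O) (c : Bool → List O) : Frag C O :=
  sq (prim Move.right none none) (loop (fun s _ => isBit s)
    (sq (ife (fun s _ => isOne s) (prt C (c true)) (prt C (c false)))
      (sq I (prim Move.right none none))))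

theorem right_run (w : List Bool) (n : ℕ) (i : ℕ) (hi : i ≤ w.length) (v : C → ℕ) (out : List O)
    (hv : ∀ c, v c ≤ n) : (prim Move.right none none).Run w n ⟨i, v, out⟩ ⟨i + 1, v, out⟩ := by
  have h := prim_run w n Move.right none none (⟨i, v, out⟩ : St C O) hv
  have e : eff w (⟨i, v, out⟩ : St C O) Move.right none none = ⟨i + 1, v, out⟩ := by
    simp only [eff, movePos, cop, Option.toList_none, List.append_nil]
    rw [min_eq_left (by omega)]
  rw [e] at h
  exact h hv

theorem pass_run (w : List Bool) (n : ℕ) (I : Frag C O) (c : Bool → List O) (v : ℕ → C → ℕ)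
    (hv : ∀ i ≤ w.length, ∀ a, v i a ≤ n)
    (hI : ∀ i < w.length, ∀ pos out, I.Run w n ⟨pos, v i, out⟩ ⟨pos, v (i + 1), out⟩)
    (out : List O) : (pass I c).Run w n ⟨0, v 0, out⟩
      ⟨w.length + 1, v w.length, out ++ w.flatMap c⟩ := by
  have key : ∀ d i, i + d = w.length → ∀ out : List O, (loop (fun s _ => isBit s)
    (sq (ife (fun s _ => isOne s) (prt C (c true)) (prt C (c false)))
      (sq I (prim Move.right none none)))).Run w n ⟨i + 1, v i, out⟩
        ⟨w.length + 1, v w.length, out ++ (w.drop i).flatMap c⟩ := by
    intro d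
    induction d with
    | zero =>
      intro i hi out
      have hi' : i = w.length := by omega
      subst hi'
      rw [List.drop_length, List.flatMap_nil, List.append_nil]
      refine loop_done (hv _ le_rfl) ?_
      show isBit (inSym w (w.length + 1)) = false
      simp [inSym, isBit]
    | succ d ih =>
      intro i hi out
      have hlt : i < w.length := by omega
      have h4 := ih (i + 1) (by omega) (out ++ c w[i])
      have hs : inSym w (i + 1) = InSym.bit w[i] := by
        simp [inSym, List.getElem?_eq_getElem hlt]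
      have h1 : (ife (fun s _ => isOne s) (prt C (c true)) (prt C (c false))).Run w n
          ⟨i + 1, v i, out⟩ ⟨i + 1, v i, out ++ c w[i]⟩ := by
        cases hb : w[i] with
        | true =>
          refine ife_true (hv i hlt.le) ?_ (prt_run w n (c true) _ (hv i hlt.le))
          show isOne (inSym w (i + 1)) = true
          rw [hs, hb]; rfl
        | false =>
          refine ife_false (hv i hlt.le) ?_ (prt_run w n (c false) _ (hv i hlt.le))
          show isOne (inSym w (i + 1)) = false
          rw [hs, hb]; rfl
      have h2 := hI i hlt (i + 1) (out ++ c w[i])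
      have h3 := right_run w n (i + 1) (by omega) (v (i + 1)) (out ++ c w[i]) (hv (i + 1) (by omega))
      have e : out ++ c w[i] ++ (w.drop (i + 1)).flatMap c = out ++ (w.drop i).flatMap c := by
        rw [List.drop_eq_getElem_cons hlt, List.flatMap_cons, List.append_assoc]
      rw [e] at h4
      refine loop_step (hv i hlt.le) ?_ (sq_run h1 (sq_run h2 h3)) h4
      show isBit (inSym w (i + 1)) = true
      rw [hs]; rfl
  have h1 := right_run w n 0 (Nat.zero_le _) (v 0) out (hv 0 (Nat.zero_le _))
  have h2 := key w.length 0 (by omega) out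
  rw [List.drop_zero] at h2
  exact sq_run h1 h2

/-- back to the left end -/
def rew : Frag C O := loop (fun s _ => !(isLend s)) (prim Move.left none none)

theorem rew_run (w : List Bool) (n : ℕ) (v : C → ℕ) (hv : ∀ a, v a ≤ n) (out : List O) (p : ℕ) :
    (rew (C := C)).Run w n ⟨p, v, out⟩ ⟨0, v, out⟩ := by
  induction p with
  | zero => exact loop_done hv rfl
  | succ p ih =>
    have h := prim_run w n Move.left none none (⟨p + 1, v, out⟩ : St C O) hv
    have e : eff w (⟨p + 1, v, out⟩ : St C O) Move.left none none = ⟨p, v, out⟩ := by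
      simp only [eff, movePos, cop, Option.toList_none, List.append_nil, Nat.add_sub_cancel]
    rw [e] at h
    refine loop_step hv ?_ (h hv) ih
    show (!(isLend (inSym w (p + 1)))) = true
    have hs : inSym w (p + 1) = InSym.rend ∨ ∃ b, inSym w (p + 1) = InSym.bit b := by
      simp only [inSym]
      cases w[p]? <;> simp
    rcases hs with h | ⟨b, h⟩ <;> rw [h] <;> rfl

end

/-! ### the printed words -/

section
variable {O : Type}

/-- the printed word -/
def outW (k : ℕ) (A : List O) (c : Bool → List O) (B blk E : List O) (w : List Bool) : List O :=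
  A ++ (w.flatMap c ++ (B ++ ((List.replicate ((w.length + 1) ^ (k + 1)) blk).flatten ++ E)))

/-- the program that prints it -/
def body (k : ℕ) (I : Frag (Ct k) O) (A : List O) (c : Bool → List O) (B blk E : List O) :
    Frag (Ct k) O :=
  sq (prt _ A) (sq (pass I c) (sq (prt _ B) (sq (pw k blk (k + 1)) (prt _ E))))

theorem body_run (k : ℕ) (I : Frag (Ct k) O) (A : List O) (c : Bool → List O) (B blk E : List O)
    (w : List Bool) (v : ℕ → Ct k → ℕ) (hv : ∀ i ≤ w.length, ∀ a, v i a ≤ w.length)
    (hv1 : v w.length = cv k w.length)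
    (hI : ∀ i < w.length, ∀ pos out, I.Run w w.length ⟨pos, v i, out⟩ ⟨pos, v (i + 1), out⟩)
    (out : List O) : (body k I A c B blk E).Run w w.length ⟨0, v 0, out⟩
      ⟨w.length + 1, cv k w.length, out ++ outW k A c B blk E w⟩ := by
  have h1 := prt_run w w.length A (⟨0, v 0, out⟩ : St (Ct k) O) (hv 0 (Nat.zero_le _))
  have h2 := pass_run w w.length I c v hv hI (out ++ A)
  rw [hv1] at h2
  have h3 := prt_run w w.length B
    (⟨w.length + 1, cv k w.length, out ++ A ++ w.flatMap c⟩ : St (Ct k) O) (ok_cv le_rfl _ _)
  have h4 := pw_run w w.length blk (k + 1) le_rfl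
    (⟨w.length + 1, cv k w.length, out ++ A ++ w.flatMap c ++ B⟩ : St (Ct k) O) (ok_cv le_rfl _ _)
    (fun i _ => ⟨rfl, rfl⟩)
  have h5 := prt_run w w.length E
    (⟨w.length + 1, cv k w.length, out ++ A ++ w.flatMap c ++ B ++
      (List.replicate ((w.length + 1) ^ (k + 1)) blk).flatten⟩ : St (Ct k) O) (ok_cv le_rfl _ _)
  have h6 := sq_run h1 (sq_run h2 (sq_run h3 (sq_run h4 h5)))
  have e : out ++ outW k A c B blk E w = out ++ A ++ w.flatMap c ++ B ++
      (List.replicate ((w.length + 1) ^ (k + 1)) blk).flatten ++ E := by
    simp only [outW, List.append_assoc]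
  rw [e]
  exact h6

theorem log_le (n : ℕ) : Nat.log 2 (n + 1) + 1 ≤ 2 * Nat.log 2 n + 2 := by
  have h : Nat.log 2 (n + 1) ≤ Nat.log 2 n + 1 := by
    rcases Nat.eq_zero_or_pos n with h | h
    · subst h; simp
    · have h1 : n + 1 ≤ n * 2 := by omega
      have h2 := Nat.log_mono_right (b := 2) h1
      rwa [Nat.log_mul_base (by norm_num) (by omega)] at h2
  omega

/-- **A one-way transducer prints `outW`.** -/
theorem one_computes (k : ℕ) (A : List O) (c : Bool → List O) (B blk E : List O) :
    ∃ M : LogTM O, OneWay M ∧
      ∀ w, M.Computes w (2 * Nat.log 2 w.length + 2) (outW k A c B blk E w) := by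
  refine ⟨(body k (incAll k (k + 1)) A c B blk E).toLog, Frag.oneWay ?_, fun w => ?_⟩
  · have h1 : ∀ j, (incAll (O := O) k j).Right := by
      intro j
      induction j with
      | zero => exact right_prim (by simp) _ _
      | succ j ih => exact right_sq ih (right_prim (by simp) _ _)
    have h2 : ∀ j, (pw k blk j).Right := by
      intro j
      induction j with
      | zero => exact right_prt _
      | succ j ih =>
        exact right_sq (right_loop (right_sq ih (right_sq (right_prim (by simp) _ _)
          (right_prim (by simp) _ _)))) (right_sq ih (right_loop (right_sq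
            (right_prim (by simp) _ _) (right_prim (by simp) _ _))))
    exact right_sq (right_prt _) (right_sq (right_sq (right_prim (by simp) _ _) (right_loop
      (right_sq (right_ife (right_prt _) (right_prt _)) (right_sq (h1 _)
        (right_prim (by simp) _ _))))) (right_sq (right_prt _) (right_sq (h2 _) (right_prt _))))
  · have h := body_run k (incAll k (k + 1)) A c B blk E w (cv k)
      (fun i hi => ok_cv hi 0 ([] : List O)) rfl (fun i hi pos out => by
        have := incAll_run (k := k) w w.length i (by omega) pos out (k + 1) le_rfl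
        rwa [cvv_last] at this) []
    have e : cv k 0 = fun _ => 0 := by
      funext c
      simp [cv]
    rw [e] at h
    exact Frag.computes _ (log_le _) h

/-- **A transducer prints `outW`, `S`, `outW`.** -/
theorem two_computes (k : ℕ) (A : List O) (c : Bool → List O) (B blk E S : List O) :
    ∃ M : LogTM O, ∀ w, M.Computes w (2 * Nat.log 2 w.length + 2)
      (outW k A c B blk E w ++ (S ++ outW k A c B blk E w)) := by
  refine ⟨(sq (body k (incAll k (k + 1)) A c B blk E) (sq (prt _ S) (sq rew
    (body k (prim Move.stay none none) A c B blk E)))).toLog, fun w => ?_⟩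
  have h := body_run k (incAll k (k + 1)) A c B blk E w (cv k)
    (fun i hi => ok_cv hi 0 ([] : List O)) rfl (fun i hi pos out => by
      have := incAll_run (k := k) w w.length i (by omega) pos out (k + 1) le_rfl
      rwa [cvv_last] at this) []
  have e : cv k 0 = fun _ => 0 := by
    funext c
    simp [cv]
  rw [e] at h
  have h2 := prt_run w w.length S (⟨w.length + 1, cv k w.length, [] ++ outW k A c B blk E w⟩ :
    St (Ct k) O) (ok_cv le_rfl _ _)
  have h3 := rew_run w w.length (cv k w.length) (ok_cv le_rfl 0 ([] : List O))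
    ([] ++ outW k A c B blk E w ++ S) (w.length + 1)
  have h4 := body_run k (prim Move.stay none none) A c B blk E w (fun _ => cv k w.length)
    (fun i hi => ok_cv le_rfl 0 ([] : List O)) rfl (fun i hi pos out => by
      have := prim_run w w.length Move.stay none none
        (⟨pos, cv k w.length, out⟩ : St (Ct k) O) (ok_cv le_rfl _ _)
        (by rw [eff_stay]; exact ok_cv le_rfl _ _)
      rwa [eff_stay] at this) ([] ++ outW k A c B blk E w ++ S)
  have h5 := Frag.computes _ (log_le _) (sq_run h (sq_run h2 (sq_run h3 h4)))
  simpa using h5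

end

end Pool.Agent.H69.PC
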