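import Pool.Agent.H69.PC.Univ
import Pool.Agent.H69.PC.Prog

/-!
# The universal language is complete for P
-/

set_option autoImplicit false

namespace Pool.Agent.H69.PC

open Pool.Agent.H80.Poly Pool.Agent.H31.Dag Pool.Agent.H72.NP Turing Computability

/-! ### the table of a stack machine -/

/-- number of an operation -/
def opc {na : ℕ} : Op na → ℕ
  | .keep => 0
  | .pop => 1
  | .push a => a + 2

variable (M : SM)

/-- length of a row -/
def rl : ℕ := M.na + 3

/-- entry of the table -/
def ent (q : Fin M.nq) (j : ℕ) : ℕ :=
  if j = 0 then M.rd q else if j = 1 then opc (M.op q) else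
    if j = 2 then rl M * M.nx q none else
      if h : j - 3 < M.na then rl M * M.nx q (some ⟨j - 3, h⟩) else 0

/-- the table -/
def tbl : List ℕ := (List.range (M.nq * rl M)).map fun i =>
  if h : i / rl M < M.nq then ent M ⟨i / rl M, h⟩ (i % rl M) else 0

theorem rl_pos : 0 < rl M := by unfold rl; omega

theorem tbl_getD (q : Fin M.nq) (j : ℕ) (hj : j < rl M) :
    (tbl M).getD (rl M * q + j) 0 = ent M q j := by
  have h1 : rl M * q + j < M.nq * rl M := by
    have h2 : (q : ℕ) + 1 ≤ M.nq := q.2
    have h3 : rl M * (q + 1) ≤ rl M * M.nq := Nat.mul_le_mul_left _ h2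
    rw [mul_comm M.nq]
    rw [mul_add, mul_one] at h3
    omega
  have h2 : (rl M * q + j) / rl M = q := by
    rw [Nat.mul_add_div (rl_pos M), Nat.div_eq_of_lt hj, add_zero]
  have h3 : (rl M * q + j) % rl M = j := by
    rw [Nat.mul_add_mod, Nat.mod_eq_of_lt hj]
  rw [List.getD_eq_getElem _ _ (by unfold tbl; simpa using h1)]
  unfold tbl
  rw [List.getElem_map, List.getElem_range]
  simp only [h2, h3, q.2, dite_true, Fin.eta]

/-- a configuration as data -/
def uconv (c : M.Cf) : UC := (tbl M, rl M * c.q, List.ofFn fun k => (c.stk k).map Fin.val)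

theorem repl_ofFn {A : Type} {n : ℕ} (f : Fin n → List A) (r : Fin n) (g : List A → List A) :
    TM.repl (List.ofFn f) r g = List.ofFn (Function.update f r (g (f r))) := by
  unfold TM.repl
  simp only [TM.drop_ofFn_head]
  symm
  apply List.ext_getElem
  · simp
    have := r.2
    omega
  · intro i h1 h2
    rw [List.length_ofFn] at h1
    simp only [List.getElem_ofFn]
    rcases Nat.lt_trichotomy i r with h | h | h
    · rw [Function.update_of_ne (by intro h'; rw [Fin.ext_iff] at h'; simp at h'; omega)]
      rw [List.getElem_append_left (by simp; omega)]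
      simp
    · have h' : (⟨i, h1⟩ : Fin n) = r := Fin.ext h
      rw [h', Function.update_self]
      rw [List.getElem_append_right (by simp; omega)]
      simp [h]
    · rw [Function.update_of_ne (by intro h'; rw [Fin.ext_iff] at h'; simp at h'; omega)]
      rw [List.getElem_append_right (by simp; omega)]
      have h3 : min (r : ℕ) n = (r : ℕ) := by
        have := r.2
        omega
      obtain ⟨j, hj⟩ : ∃ j, i = (r : ℕ) + 1 + j := ⟨i - r - 1, by omega⟩
      subst hj
      simp only [List.length_take, List.length_ofFn, h3]
      have h4 : (r : ℕ) + 1 + j - (r : ℕ) = j + 1 := by omega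
      simp only [h4, List.getElem_cons_succ, List.getElem_drop, List.getElem_ofFn]

theorem uact_push (n : ℕ) (s : List ℕ) : uact (n + 2) s = n :: s := by
  unfold uact
  simp

theorem uact_map {na : ℕ} (o : Op na) (s : List (Fin na)) :
    uact (opc o) (s.map Fin.val) = (o.act s).map Fin.val := by
  cases o with
  | keep => rfl
  | pop => simp [uact, opc, Op.act, List.map_tail]
  | push a => exact uact_push _ _

theorem uconv_step (c : M.Cf) : ustep (uconv M c) = uconv M (M.step c) := by
  have h0 : (tbl M).getD (rl M * c.q) 0 = M.rd c.q := by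
    have := tbl_getD M c.q 0 (rl_pos M)
    rw [add_zero] at this
    rw [this]; rfl
  have h1 : (tbl M).getD (rl M * c.q + 1) 0 = opc (M.op c.q) := by
    rw [tbl_getD M c.q 1 (by unfold rl; omega)]
    rfl
  have ht : TM.top (List.ofFn fun k => (c.stk k).map Fin.val) (M.rd c.q) =
      (c.stk (M.rd c.q)).head?.map Fin.val := by
    unfold TM.top
    rw [TM.drop_ofFn_head, List.head?_map]
  have h2 : (tbl M).getD (rl M * c.q + 2 + tp (List.ofFn fun k => (c.stk k).map Fin.val)
      (M.rd c.q)) 0 = rl M * M.nx c.q (c.stk (M.rd c.q)).head? := by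
    unfold tp
    rw [ht]
    cases h : (c.stk (M.rd c.q)).head? with
    | none =>
      show (tbl M).getD (rl M * c.q + 2 + 0) 0 = _
      rw [add_zero, tbl_getD M c.q 2 (by unfold rl; omega)]
      rfl
    | some a =>
      show (tbl M).getD (rl M * c.q + 2 + ((a : ℕ) + 1)) 0 = _
      rw [add_assoc, tbl_getD M c.q (2 + ((a : ℕ) + 1)) (by unfold rl; have := a.2; omega)]
      unfold ent
      rw [if_neg (by omega), if_neg (by omega), if_neg (by omega)]
      have h5 : 2 + ((a : ℕ) + 1) - 3 = a := by omega
      rw [dif_pos (by rw [h5]; exact a.2)]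
      simp only [h5, Fin.eta]
  unfold ustep uconv
  simp only [h0, h1, h2, repl_ofFn, uact_map]
  refine Prod.ext rfl (Prod.ext rfl ?_)
  show List.ofFn _ = List.ofFn _
  congr 1
  funext k
  by_cases hk : k = M.rd c.q
  · subst hk
    simp only [Function.update_self, SM.step]
  · simp only [Function.update_of_ne hk, SM.step]

theorem uconv_iter (c : M.Cf) (n : ℕ) : ustep^[n] (uconv M c) = uconv M (M.step^[n] c) := by
  induction n with
  | zero => rfl
  | succ n ih => rw [Function.iterate_succ_apply', ih, uconv_step, Function.iterate_succ_apply']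

/-- the stacks at the start -/
def stks (l : List ℕ) : List (List ℕ) :=
  List.replicate M.inp.val [] ++ (l :: List.replicate (M.nk - M.inp.val - 1) [])

theorem stks_eq (l : List (Fin M.na)) :
    stks M (l.map Fin.val) = List.ofFn fun k => ((M.init l).stk k).map Fin.val := by
  unfold stks SM.init
  apply List.ext_getElem
  · simp
    have := M.inp.2
    omega
  · intro i h1 h2
    rw [List.length_ofFn] at h2
    simp only [List.getElem_ofFn]
    rcases Nat.lt_trichotomy i M.inp with h | h | h
    · rw [Function.update_of_ne (by intro h'; rw [Fin.ext_iff] at h'; simp at h'; omega)]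
      rw [List.getElem_append_left (by simpa using h)]
      simp
    · have h' : (⟨i, h2⟩ : Fin M.nk) = M.inp := Fin.ext h
      rw [h', Function.update_self]
      rw [List.getElem_append_right (by simp; omega)]
      simp [h]
    · rw [Function.update_of_ne (by intro h'; rw [Fin.ext_iff] at h'; simp at h'; omega)]
      rw [List.getElem_append_right (by simp; omega)]
      obtain ⟨j, hj⟩ : ∃ j, i = (M.inp : ℕ) + 1 + j := ⟨i - M.inp - 1, by omega⟩
      subst hj
      have h4 : (M.inp : ℕ) + 1 + j - M.inp = j + 1 := by omega
      simp [h4]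

/-- the lists describing the machine, an input and the time -/
def desc (l T : List ℕ) : List (List ℕ) :=
  [tbl M, [rl M * M.start, rl M * M.acc]] ++ stks M l ++ [T]

theorem utest_iff (d : List (List ℕ)) : utest d = true ↔
    (ustep^[(d.headD []).length] (uinit d)).2.1 = (d.tail.reverse.tail.headD []).getD 1 0 := by
  unfold utest
  exact decide_eq_true_iff

theorem utest_desc (l : List (Fin M.na)) (T : List ℕ) :
    utest (desc M (l.map Fin.val) T).reverse = true ↔ (M.run l T.length).q = M.acc := by
  have h1 : (desc M (l.map Fin.val) T).reverse = T ::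
      (stks M (l.map Fin.val)).reverse ++ [[rl M * M.start, rl M * M.acc], tbl M] := by
    unfold desc
    simp
  have h2 : (desc M (l.map Fin.val) T).reverse.tail.reverse =
      tbl M :: [rl M * M.start, rl M * M.acc] :: stks M (l.map Fin.val) := by
    rw [h1]
    simp
  rw [utest_iff]
  unfold uinit
  rw [h2, h1]
  simp only [List.cons_append, List.headD_cons, List.tail_cons]
  have h3 : ((tbl M, [rl M * M.start.val, rl M * M.acc.val].getD 0 0, stks M (l.map Fin.val)) : UC) =
      uconv M (M.init l) := by
    rw [stks_eq]
    rfl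
  rw [h3, uconv_iter]
  show rl M * ((M.step^[T.length] (M.init l)).q : ℕ) = rl M * (M.acc : ℕ) ↔ _
  rw [Nat.mul_right_inj (rl_pos M).ne', ← Fin.ext_iff]
  rfl

/-! ### the reduction -/

theorem encLL_append (u v : List (List ℕ)) : encLL (u ++ v) = encLL u ++ encLL v := by
  unfold encLL
  rw [List.flatMap_append]

theorem flatten_flatMap {A B : Type} (f : A → List B) (l : List A) (n : ℕ) :
    ((List.replicate n l).flatten).flatMap f = (List.replicate n (l.flatMap f)).flatten := by
  induction n with
  | zero => rfl
  | succ n ih => rw [List.replicate_succ, List.replicate_succ, List.flatten_cons, List.flatten_cons,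
      List.flatMap_append, ih]

theorem flatten_single (n : ℕ) : (List.replicate n [0]).flatten = List.replicate n (0 : ℕ) := by
  induction n with
  | zero => rfl
  | succ m ih => rw [List.replicate_succ, List.flatten_cons, ih]; rfl

/-- polynomial bound by a monomial -/
theorem eval_le_mono (p : Polynomial ℕ) : ∃ c k, ∀ n, p.eval n ≤ (n + 1) ^ (k + 1) * c := by
  refine ⟨∑ i ∈ Finset.range (p.natDegree + 1), p.coeff i, p.natDegree, fun n => ?_⟩
  rw [Polynomial.eval_eq_sum_range, Finset.mul_sum]
  refine Finset.sum_le_sum fun i hi => ?_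
  rw [mul_comm]
  refine Nat.mul_le_mul_right _ ?_
  have h1 : i ≤ p.natDegree + 1 := (Finset.mem_range.1 hi).le
  calc n ^ i ≤ (n + 1) ^ i := Nat.pow_le_pow_left (Nat.le_succ n) i
    _ ≤ (n + 1) ^ (p.natDegree + 1) := Nat.pow_le_pow_right (Nat.succ_pos n) h1

theorem exists_red {K : Set (List Bool)} (hK : InP (id : List Bool → List Bool) K) :
    ∃ (k : ℕ) (A : List Bool) (c : Bool → List Bool) (B blk : List Bool),
      ∀ x, x ∈ K ↔ outW k A c B blk [false] x ∈ KU := by
  obtain ⟨D, ⟨⟨⟨tm, ia, oa⟩, time, hout⟩⟩, hD⟩ := hK
  set good : tm.Γ tm.k₁ := oa.symm true with hgood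
  set M : SM := Sim.smOf tm good with hM
  set P : Polynomial ℕ := Polynomial.C (Sim.costB tm) * time + 1 with hP
  obtain ⟨c₀, k, hck⟩ := eval_le_mono P
  set ex : Bool → Fin M.na := fun b => Sim.symSM tm good (ia.symm b) with hex
  have key : ∀ (x : List Bool) (t : ℕ), P.eval x.length ≤ t →
      (D x = true ↔ (M.run (x.map ex) t).q = M.acc) := by
    intro x t ht
    have h3 := hout x
    have e1 : List.map oa.invFun (encodeBool (D x)) = [oa.symm (D x)] := rfl
    rw [e1] at h3
    have h4 := Sim.smOf_run tm good _ _ _ h3 t (by
      refine le_trans (le_of_eq ?_) ht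
      rw [hP]
      simp only [Polynomial.eval_add, Polynomial.eval_mul, Polynomial.eval_C,
        Polynomial.eval_one]
      rfl)
    have e2 : List.map (Sim.symSM tm good) (List.map ia.invFun (id x)) = x.map ex := by
      rw [List.map_map]; rfl
    rw [e2] at h4
    rw [h4, hgood]
    exact ⟨fun h => by rw [h], fun h => oa.symm.injective h⟩
  refine ⟨k, encLL ([tbl M, [rl M * M.start, rl M * M.acc]] ++ List.replicate M.inp.val []),
    fun b => encN (ex b), [false] ++ encLL (List.replicate (M.nk - M.inp.val - 1) []),
    (List.replicate c₀ (encN 0)).flatten, fun x => ?_⟩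
  set T : List ℕ := (List.replicate ((x.length + 1) ^ (k + 1)) (List.replicate c₀ 0)).flatten with hT
  have hTl : T.length = (x.length + 1) ^ (k + 1) * c₀ := by
    rw [hT]; simp
  have henc : outW k (encLL ([tbl M, [rl M * M.start, rl M * M.acc]] ++
      List.replicate M.inp.val [])) (fun b => encN (ex b))
      ([false] ++ encLL (List.replicate (M.nk - M.inp.val - 1) []))
      (List.replicate c₀ (encN 0)).flatten [false] x = encLL (desc M ((x.map ex).map Fin.val) T) := by
    unfold desc stks
    rw [encLL_append, encLL_append, encLL_append, encLL_append]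
    have e1 : encLL ((x.map ex).map Fin.val :: List.replicate (M.nk - M.inp.val - 1) []) =
        x.flatMap (fun b => encN (ex b)) ++ [false] ++
          encLL (List.replicate (M.nk - M.inp.val - 1) []) := by
      show encL _ ++ encLL _ = _
      unfold encL
      rw [List.map_map, List.flatMap_map]
      rfl
    have e2 : encLL [T] = (List.replicate ((x.length + 1) ^ (k + 1))
        (List.replicate c₀ (encN 0)).flatten).flatten ++ [false] := by
      show encL T ++ [] = _
      unfold encL
      rw [List.append_nil, hT, flatten_flatMap]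
      congr 3
      have h5 := flatten_flatMap encN [0] c₀
      rw [flatten_single] at h5
      rw [h5]
      simp
    rw [e1, e2]
    unfold outW
    simp only [List.append_assoc]
  rw [henc]
  show x ∈ K ↔ utest (dec (encLL (desc M ((x.map ex).map Fin.val) T))) = true
  rw [dec_encLL, utest_desc, hD]
  exact key x _ (by rw [hTl]; exact hck _)

end Pool.Agent.H69.PC
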