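import Pool.Agent.H31.Dag.TM
import Pool.Agent.H31.Dag.Back

/-!
# A universal language in P

A bit string is parsed as a list of lists of natural numbers (in unary). It describes a stack
machine (as a table of numbers), its start and accepting addresses, the contents of the stacks and,
by the length of the last list, the number of steps.
-/

set_option autoImplicit false

namespace Pool.Agent.H69.PC

open Pool.Agent.H80.Poly Pool.Agent.H31.Dag

/-! ### the parser -/

/-- code of a number -/
def encN (k : ℕ) : List Bool := List.replicate (k + 1) true ++ [false]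

/-- code of a list of numbers -/
def encL (l : List ℕ) : List Bool := l.flatMap encN ++ [false]

/-- code of a list of lists of numbers -/
def encLL (ls : List (List ℕ)) : List Bool := ls.flatMap encL

/-- state of the parser: the finished lists (the last one first), the numbers of the list that is
being read (the last one first), and the number of ones just read -/
abbrev PS : Type := List (List ℕ) × List ℕ × ℕ

/-- one step of the parser -/
def dstep (s : PS) (b : Bool) : PS :=
  bif b then (s.1, s.2.1, s.2.2 + 1) else
    (bif decide (s.2.2 = 0) then (s.2.1.reverse :: s.1, [], 0) else (s.1, (s.2.2 - 1) :: s.2.1, 0))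

/-- the parser; the last list is the first one of the result -/
def dec (x : List Bool) : List (List ℕ) := (x.foldl dstep ([], [], 0)).1

theorem foldl_ones (m : ℕ) : ∀ (acc : List (List ℕ)) (cur : List ℕ) (r : ℕ),
    (List.replicate m true).foldl dstep (acc, cur, r) = (acc, cur, r + m) := by
  induction m with
  | zero => intro acc cur r; rfl
  | succ m ih =>
    intro acc cur r
    rw [List.replicate_succ, List.foldl_cons]
    have : dstep (acc, cur, r) true = (acc, cur, r + 1) := rfl
    rw [this, ih]
    congr 2
    omega

theorem foldl_encN (k : ℕ) (acc : List (List ℕ)) (cur : List ℕ) :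
    (encN k).foldl dstep (acc, cur, 0) = (acc, k :: cur, 0) := by
  unfold encN
  rw [List.foldl_append, foldl_ones]
  simp [dstep]

theorem foldl_encNs (l : List ℕ) : ∀ (acc : List (List ℕ)) (cur : List ℕ),
    (l.flatMap encN).foldl dstep (acc, cur, 0) = (acc, l.reverse ++ cur, 0) := by
  induction l with
  | nil => intro acc cur; rfl
  | cons k l ih =>
    intro acc cur
    rw [List.flatMap_cons, List.foldl_append, foldl_encN, ih]
    simp

theorem foldl_encL (l : List ℕ) (acc : List (List ℕ)) :
    (encL l).foldl dstep (acc, [], 0) = (l :: acc, [], 0) := by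
  unfold encL
  rw [List.foldl_append, foldl_encNs]
  simp [dstep]

theorem foldl_encLL (ls : List (List ℕ)) : ∀ acc : List (List ℕ),
    (encLL ls).foldl dstep (acc, [], 0) = (ls.reverse ++ acc, [], 0) := by
  induction ls with
  | nil => intro acc; rfl
  | cons l ls ih =>
    intro acc
    have : encLL (l :: ls) = encL l ++ encLL ls := rfl
    rw [this, List.foldl_append, foldl_encL, ih]
    simp

theorem dec_encLL (ls : List (List ℕ)) : dec (encLL ls) = ls.reverse := by
  unfold dec
  rw [foldl_encLL]
  simp

/-- a potential -/
def pot (s : PS) : ℕ := size s.1 + 2 * size s.2.1 + 4 * s.2.2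

theorem pot_dstep (s : PS) (b : Bool) : pot (dstep s b) ≤ pot s + 4 := by
  obtain ⟨acc, cur, r⟩ := s
  cases b with
  | true =>
    simp only [dstep, pot, cond_true]
    omega
  | false =>
    by_cases h : r = 0
    · subst h
      simp only [dstep, pot, cond_false, decide_true, cond_true, size_cons, size_reverse, size_nil]
      omega
    · simp only [dstep, pot, cond_false, h, decide_false, size_cons]
      have := size_nat_le_self (r - 1)
      omega

theorem pot_foldl (x : List Bool) : ∀ s : PS, pot (x.foldl dstep s) ≤ pot s + 4 * x.length := by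
  induction x with
  | nil => intro s; simp
  | cons b x ih =>
    intro s
    rw [List.foldl_cons, List.length_cons]
    have h1 := ih (dstep s b)
    have h2 := pot_dstep s b
    omega

theorem size_ps (s : PS) : size s ≤ 2 * pot s + 2 := by
  rw [size_prod, size_prod]
  have := size_nat_le_self s.2.2
  unfold pot
  omega

theorem poly_dstep : PolyTime (fun w : PS × Bool => dstep w.1 w.2) := by
  have hw : PolyTime (fun w : PS × Bool => w) := PolyTime.id
  unfold dstep
  refine PolyTime.cond hw.snd (hw.fst.fst.pair (hw.fst.snd.fst.pair hw.fst.snd.snd.succ)) ?_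
  refine PolyTime.cond (PolyTime.eq hw.fst.snd.snd (PolyTime.const 0)) ?_ ?_
  · exact (hw.fst.snd.fst.reverse.cons hw.fst.fst).pair
      ((PolyTime.const []).pair (PolyTime.const 0))
  · exact hw.fst.fst.pair ((hw.fst.snd.snd.pred.cons hw.fst.snd.fst).pair (PolyTime.const 0))

theorem poly_dec : PolyTime (fun x : List Bool => dec x) := by
  unfold dec
  have hw : PolyTime (fun w : List Bool × PS × Bool => w) := PolyTime.id
  refine (PolyTime.foldl (l := fun x : List Bool => x) (f := fun _ => (([], [], 0) : PS))
    (h := fun w : List Bool × PS × Bool => dstep w.2.1 w.2.2) PolyTime.id (PolyTime.const _)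
    (poly_dstep.comp (hw.snd.fst.pair hw.snd.snd)) ?_).fst
  refine ⟨fun n => 8 * n + 2, ((PB.const 8).mul PB.id).add (PB.const 2), fun x i hi => ?_⟩
  have h1 := pot_foldl (x.take i) ([], [], 0)
  have h2 := size_ps ((x.take i).foldl dstep ([], [], 0))
  have h3 := length_le_size x
  have h4 : pot ([], [], 0) = 0 := by simp [pot, size_nil]
  have h5 : (x.take i).length ≤ x.length := by simp
  refine h2.trans ?_
  simp only at h1 ⊢
  omega

/-! ### the interpreter -/

/-- top symbol (plus one) of stack `r`; `0` for the empty stack -/
def tp (S : List (List ℕ)) (r : ℕ) : ℕ := match TM.top S r with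
  | none => 0
  | some a => a + 1

/-- the operation with number `o` -/
def uact (o : ℕ) (s : List ℕ) : List ℕ :=
  bif decide (o = 0) then s else (bif decide (o = 1) then s.tail else (o - 2) :: s)

/-- configurations: the table, the address, the stacks -/
abbrev UC : Type := List ℕ × ℕ × List (List ℕ)

/-- one step of the interpreter -/
def ustep (z : UC) : UC :=
  (z.1, z.1.getD (z.2.1 + 2 + tp z.2.2 (z.1.getD z.2.1 0)) 0,
    TM.repl z.2.2 (z.1.getD z.2.1 0) (uact (z.1.getD (z.2.1 + 1) 0)))

theorem poly_tp {α : Type} [BEnc α] {S : α → List (List ℕ)} {r : α → ℕ} (hS : PolyTime S)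
    (hr : PolyTime r) : PolyTime (fun a => tp (S a) (r a)) := by
  have h : PolyTime (fun a => TM.top (S a) (r a)) := by
    unfold TM.top
    exact ((hS.drop hr).head?.getD (PolyTime.const [])).head?
  have hw : PolyTime (fun w : ℕ × α => w) := PolyTime.id
  refine (PolyTime.optElim (o := fun a => TM.top (S a) (r a)) (f := fun _ : α => 0)
    (g := fun w : ℕ × α => w.1 + 1) h (PolyTime.const 0) hw.fst.succ).congr fun a => ?_
  unfold tp
  cases TM.top (S a) (r a) <;> rfl

theorem poly_uact {α : Type} [BEnc α] {o : α → ℕ} {s : α → List ℕ} (ho : PolyTime o)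
    (hs : PolyTime s) : PolyTime (fun a => uact (o a) (s a)) := by
  unfold uact
  exact PolyTime.cond (PolyTime.eq ho (PolyTime.const 0)) hs
    (PolyTime.cond (PolyTime.eq ho (PolyTime.const 1)) hs.tail
      ((PolyTime.sub ho (PolyTime.const 2)).cons hs))

theorem poly_ustep : PolyTime ustep := by
  have hz : PolyTime (fun z : UC => z) := PolyTime.id
  have h1 : PolyTime (fun z : UC => z.1.getD z.2.1 0) := hz.fst.list_getD hz.snd.fst (PolyTime.const 0)
  have h2 : PolyTime (fun z : UC => z.1.getD (z.2.1 + 1) 0) :=
    hz.fst.list_getD hz.snd.fst.succ (PolyTime.const 0)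
  have h3 : PolyTime (fun z : UC => z.1.getD (z.2.1 + 2 + tp z.2.2 (z.1.getD z.2.1 0)) 0) :=
    hz.fst.list_getD (hz.snd.fst.succ.succ.add (poly_tp hz.snd.snd h1)) (PolyTime.const 0)
  have h4 : PolyTime (fun z : UC =>
      TM.repl z.2.2 (z.1.getD z.2.1 0) (uact (z.1.getD (z.2.1 + 1) 0))) := by
    unfold TM.repl
    exact (hz.snd.snd.take h1).append ((poly_uact h2
      ((hz.snd.snd.drop h1).head?.getD (PolyTime.const []))).cons (hz.snd.snd.drop h1.succ))
  exact hz.fst.pair (h3.pair h4)

theorem size_getD_le (F : List ℕ) (i : ℕ) : size (F.getD i 0) ≤ size F := by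
  by_cases h : i < F.length
  · rw [List.getD_eq_getElem _ _ h]
    have := size_of_mem (List.getElem_mem h)
    omega
  · rw [List.getD_eq_default _ _ (by omega)]
    have := size_nat_le_self 0
    omega

theorem size_uact_le (o : ℕ) (s : List ℕ) : size (uact o s) ≤ size s + (2 * size o + 1) := by
  unfold uact
  by_cases h0 : o = 0
  · simp [h0]
  · by_cases h1 : o = 1
    · simp only [h0, decide_false, cond_false, h1, decide_true, cond_true]
      have := size_drop_le s 1
      rw [List.drop_one] at this
      simp only [one_ne_zero, decide_false, cond_false]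
      omega
    · simp only [h0, h1, decide_false, cond_false, size_cons]
      have := size_nat_mono (Nat.sub_le o 2)
      omega

theorem size_repl_le (S : List (List ℕ)) (r o : ℕ) :
    size (TM.repl S r (uact o)) ≤ size S + (4 * size o + 3) := by
  unfold TM.repl
  rw [size_append, size_cons]
  have h0 := size_uact_le o ((S.drop r).head?.getD [])
  have h1 : size S = size (S.take r) + size (S.drop r) := by
    rw [← size_append, List.take_append_drop]
  cases hd : S.drop r with
  | nil =>
    rw [hd] at h0 h1
    have h2 : S.drop (r + 1) = [] := by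
      rw [← List.drop_drop, hd]; rfl
    rw [h2]
    simp only [List.head?_nil, Option.getD_none, size_nil] at h0 h1 ⊢
    omega
  | cons s t =>
    rw [hd, size_cons] at h1
    rw [hd] at h0
    have h2 : S.drop (r + 1) = t := by
      rw [← List.drop_drop, hd]; rfl
    rw [h2]
    simp only [List.head?_cons, Option.getD_some] at h0 ⊢
    omega

theorem size_ustep (z : UC) (C : ℕ) (h1 : size z.1 ≤ C) (h2 : size z.2.1 ≤ C) :
    (ustep z).1 = z.1 ∧ size (ustep z).2.1 ≤ C ∧
      size (ustep z).2.2 ≤ size z.2.2 + (4 * C + 3) := by
  refine ⟨rfl, (size_getD_le _ _).trans h1, ?_⟩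
  have h3 := size_repl_le z.2.2 (z.1.getD z.2.1 0) (z.1.getD (z.2.1 + 1) 0)
  have h4 := size_getD_le z.1 (z.2.1 + 1)
  show size (TM.repl z.2.2 (z.1.getD z.2.1 0) (uact (z.1.getD (z.2.1 + 1) 0))) ≤ _
  omega

theorem size_uiter (z : UC) (C : ℕ) (h1 : size z.1 ≤ C) (h2 : size z.2.1 ≤ C) (n : ℕ) :
    (ustep^[n] z).1 = z.1 ∧ size (ustep^[n] z).2.1 ≤ C ∧
      size (ustep^[n] z).2.2 ≤ size z.2.2 + n * (4 * C + 3) := by
  induction n with
  | zero => exact ⟨rfl, h2, by simp⟩
  | succ n ih =>
    obtain ⟨e1, e2, e3⟩ := ih
    rw [Function.iterate_succ_apply']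
    obtain ⟨g1, g2, g3⟩ := size_ustep (ustep^[n] z) C (by rw [e1]; exact h1) e2
    refine ⟨g1.trans e1, g2, g3.trans ?_⟩
    have : (n + 1) * (4 * C + 3) = n * (4 * C + 3) + (4 * C + 3) := by ring
    omega

/-! ### the language -/

/-- the start configuration described by the lists (the last one first) -/
def uinit (d : List (List ℕ)) : UC :=
  (d.tail.reverse.headD [], (d.tail.reverse.tail.headD []).getD 0 0, d.tail.reverse.tail.tail)

/-- the test -/
def utest (d : List (List ℕ)) : Bool :=
  decide ((ustep^[(d.headD []).length] (uinit d)).2.1 =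
    (d.tail.reverse.tail.headD []).getD 1 0)

/-- the universal language -/
def KU : Set (List Bool) := {x | utest (dec x) = true}

theorem poly_uinit : PolyTime uinit := by
  have hd : PolyTime (fun d : List (List ℕ) => d) := PolyTime.id
  exact (hd.tail.reverse.headD []).pair
    (((hd.tail.reverse.tail.headD []).list_getD (PolyTime.const 0) (PolyTime.const 0)).pair
      hd.tail.reverse.tail.tail)

theorem poly_utest : PolyTime utest := by
  have hd : PolyTime (fun d : List (List ℕ) => d) := PolyTime.id
  have htime : PolyTime (fun d : List (List ℕ) => toStr (UNat.ofNat (d.headD []).length)) :=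
    PolyTime.toStr'.comp (PolyTime.lengthU (hd.headD []))
  have hlen : ∀ d : List (List ℕ), (enc (toStr (UNat.ofNat (d.headD []).length))).length =
      (d.headD []).length := fun d => size_unat _
  obtain ⟨b, hb, hbs⟩ := poly_uinit.size_le
  have hiter := PolyTime.iterate (h := ustep) htime poly_uinit poly_ustep
    ⟨fun n => 2 * b n + 1 + (2 * b n + 1 + (b n + n * (4 * b n + 3))),
      (((PB.const 2).mul hb).add (PB.const 1)).add ((((PB.const 2).mul hb).add (PB.const 1)).add
        (hb.add (PB.id.mul (((PB.const 4).mul hb).add (PB.const 3))))), by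
      intro d i hi
      rw [hlen] at hi
      have h0 := hbs d
      have h1 : size (uinit d).1 ≤ b (size d) := by
        rw [size_prod] at h0; omega
      have h2 : size (uinit d).2.1 ≤ b (size d) := by
        rw [size_prod, size_prod] at h0; omega
      have h3 : size (uinit d).2.2 ≤ b (size d) := by
        rw [size_prod, size_prod] at h0; omega
      obtain ⟨g1, g2, g3⟩ := size_uiter (uinit d) _ h1 h2 i
      rw [size_prod, size_prod]
      have h4 : i ≤ size d := by
        cases d with
        | nil => simp at hi; omega
        | cons t d =>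
          simp only [List.headD_cons] at hi
          have := length_le_size t
          rw [size_cons]
          omega
      have h5 : i * (4 * b (size d) + 3) ≤ size d * (4 * b (size d) + 3) :=
        Nat.mul_le_mul_right _ h4
      have h6 : size (ustep^[i] (uinit d)).1 ≤ b (size d) := by rw [g1]; exact h1
      simp only
      omega⟩
  have h := PolyTime.eq hiter.snd.fst ((hd.tail.reverse.tail.headD []).list_getD
    (PolyTime.const 1) (PolyTime.const 0))
  refine h.congr fun d => ?_
  rw [hlen]
  rfl

theorem inP_KU : InP (id : List Bool → List Bool) KU := by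
  refine inP_of_poly (D := fun x : List Bool => utest (dec x)) ?_ (fun x => Iff.rfl)
  exact (poly_utest.comp poly_dec).comp PolyTime.strToList'

end Pool.Agent.H69.PC
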